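import Pool.Agent.Work.MP_99279c_al.Rec

/-!
# Translation between permutations and subgroups of finite index
-/

set_option autoImplicit false

namespace Pool.MP99279c

open FreeGroup

/-- a word killing all pairs generating primitive groups of degree `a` lies in every conjugate of
every maximal subgroup of index `a`. -/
theorem mem_normalCore {a : ℕ} (ha : 2 ≤ a) {w : F2}
    (hw : ∀ f : Fin 2 → Equiv.Perm (Fin a),
      MulAction.IsPreprimitive (Subgroup.closure (Set.range f)) (Fin a) → FreeGroup.lift f w = 1)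
    {K : Subgroup F2} (hK : IsCoatom K) (hKa : K.index = a) : w ∈ K.normalCore := by
  classical
  have hfin : Finite (F2 ⧸ K) := by
    rw [← Subgroup.index_ne_zero_iff_finite]
    omega
  have hcard : Nat.card (F2 ⧸ K) = a := by rw [← Subgroup.index_eq_card, hKa]
  let e : (F2 ⧸ K) ≃ Fin a := Finite.equivFinOfCardEq hcard
  let f : Fin 2 → Equiv.Perm (Fin a) := fun i =>
    e.permCongrHom (MulAction.toPermHom F2 (F2 ⧸ K) (FreeGroup.of i))
  have hf : FreeGroup.lift f = (e.permCongrHom : Equiv.Perm (F2 ⧸ K) →* Equiv.Perm (Fin a)).comp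
      (MulAction.toPermHom F2 (F2 ⧸ K)) := by
    ext i : 1
    simp [f]
  have hnt : Nontrivial (F2 ⧸ K) := by
    rw [← Finite.one_lt_card_iff_nontrivial, hcard]
    omega
  have hprim : MulAction.IsPreprimitive F2 (F2 ⧸ K) := by
    rw [← MulAction.isCoatom_stabilizer_iff_preprimitive F2 ((1 : F2) : F2 ⧸ K),
      MulAction.stabilizer_quotient]
    exact hK
  have hmem : ∀ g : F2, FreeGroup.lift f g ∈ Subgroup.closure (Set.range f) := by
    intro g
    rw [← FreeGroup.range_lift_eq_closure]
    exact ⟨g, rfl⟩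
  let φ : F2 → Subgroup.closure (Set.range f) := fun g => ⟨FreeGroup.lift f g, hmem g⟩
  let E : (F2 ⧸ K) →ₑ[φ] Fin a :=
    { toFun := e
      map_smul' := by
        intro g x
        change e (g • x) = FreeGroup.lift f g (e x)
        rw [hf]
        simp }
  have hprim2 : MulAction.IsPreprimitive (Subgroup.closure (Set.range f)) (Fin a) :=
    MulAction.IsPreprimitive.of_surjective (f := E) e.surjective
  have h1 := hw f hprim2
  rw [hf] at h1
  have h2 : MulAction.toPermHom F2 (F2 ⧸ K) w = 1 := by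
    have : (e.permCongrHom) (MulAction.toPermHom F2 (F2 ⧸ K) w) = 1 := h1
    rwa [map_eq_one_iff _ e.permCongrHom.injective] at this
  intro b
  have h3 : w • ((b⁻¹ : F2) : F2 ⧸ K) = ((b⁻¹ : F2) : F2 ⧸ K) := by
    have := congrArg (fun σ : Equiv.Perm (F2 ⧸ K) => σ ((b⁻¹ : F2) : F2 ⧸ K)) h2
    simpa using this
  have h4 : ((w * b⁻¹ : F2) : F2 ⧸ K) = ((b⁻¹ : F2) : F2 ⧸ K) := h3
  have h5 := QuotientGroup.eq.mp h4.symm
  have h6 : (b⁻¹)⁻¹ * (w * b⁻¹) = b * w * b⁻¹ := by group
  rwa [h6] at h5

/-- an element of all subgroups of index at most `n` is a law for `Sym(n)` -/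
theorem law_of_inAll {n : ℕ} {V : F2} (hV : InAll V n) (f : Fin 2 → Equiv.Perm (Fin n)) :
    FreeGroup.lift f V = 1 := by
  classical
  ext x : 1
  let _ : MulAction F2 (Fin n) := MulAction.compHom (Fin n) (FreeGroup.lift f)
  have hidx : (MulAction.stabilizer F2 x).index = (MulAction.orbit F2 x).ncard :=
    MulAction.index_stabilizer F2 x
  have h1 : (MulAction.orbit F2 x).ncard ≤ n := by
    have := Set.ncard_le_ncard (Set.subset_univ (MulAction.orbit F2 x)) Set.finite_univ
    rwa [Set.ncard_univ, Nat.card_eq_fintype_card, Fintype.card_fin] at this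
  have h0 : (MulAction.orbit F2 x).ncard ≠ 0 := by
    rw [Ne, Set.ncard_eq_zero (Set.toFinite _)]
    exact (MulAction.nonempty_orbit (M := F2) x).ne_empty
  have := hV (MulAction.stabilizer F2 x) (by rw [hidx]; exact h0) (by rw [hidx]; exact h1)
  exact MulAction.mem_stabilizer_iff.mp this

end Pool.MP99279c
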