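import Pool.Agent.Work.MP_99279c_al.Word

/-!
# The recursion: words for maximal subgroups give words for all subgroups of bounded index
-/

set_option autoImplicit false

namespace Pool.MP99279c

open FreeGroup

theorem normalClosure_le_of_mem {v w : F2} (h : v ∈ Subgroup.normalClosure {w}) :
    Subgroup.normalClosure {v} ≤ Subgroup.normalClosure {w} :=
  Subgroup.normalClosure_le_normal (Set.singleton_subset_iff.mpr h)

/-- balanced combination of `2^j` words -/
theorem balanced (p : ℕ → F2) (L : ℕ) : ∀ (j b : ℕ), (∀ a, b ≤ a → a < b + 2 ^ j → p a ≠ 1) →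
    (∀ a, b ≤ a → a < b + 2 ^ j → (p a).norm ≤ L) →
    ∃ q : F2, q ≠ 1 ∧ (∀ a, b ≤ a → a < b + 2 ^ j → q ∈ Subgroup.normalClosure {p a}) ∧
      q.norm + 6 ≤ 4 ^ j * (L + 6) := by
  intro j
  induction j with
  | zero =>
    intro b hp hL
    refine ⟨p b, hp b le_rfl (by simp), ?_, ?_⟩
    · intro a h1 h2
      have : a = b := by rw [pow_zero] at h2; omega
      rw [this]
      exact Subgroup.subset_normalClosure (Set.mem_singleton _)
    · have := hL b le_rfl (by simp)
      rw [pow_zero]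
      omega
  | succ j ih =>
    intro b hp hL
    have h2j : 2 ^ (j + 1) = 2 ^ j + 2 ^ j := by ring
    obtain ⟨q1, h11, h12, h13⟩ := ih b (fun a h1 h2 => hp a h1 (by omega))
      (fun a h1 h2 => hL a h1 (by omega))
    obtain ⟨q2, h21, h22, h23⟩ := ih (b + 2 ^ j) (fun a h1 h2 => hp a (by omega) (by omega))
      (fun a h1 h2 => hL a (by omega) (by omega))
    obtain ⟨q, hq1, hq2, hq3, hq4⟩ := exists_comm h11 h21
    refine ⟨q, hq1, ?_, ?_⟩
    · intro a h1 h2
      by_cases h3 : a < b + 2 ^ j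
      · exact normalClosure_le_of_mem (h12 a h1 h3) hq2
      · exact normalClosure_le_of_mem (h22 a (by omega) (by omega)) hq3
    · have : 4 ^ (j + 1) * (L + 6) = 4 * (4 ^ j * (L + 6)) := by ring
      rw [this]
      omega

/-- the property that `V` lies in every subgroup of index at most `M` -/
def InAll (V : F2) (M : ℕ) : Prop := ∀ H : Subgroup F2, H.index ≠ 0 → H.index ≤ M → V ∈ H

theorem exists_maximal_above {H : Subgroup F2} (h0 : H.index ≠ 0) (h1 : H.index ≠ 1) :
    ∃ K : Subgroup F2, IsCoatom K ∧ H ≤ K := by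
  classical
  have hex : ∃ n : ℕ, ∃ K : Subgroup F2, H ≤ K ∧ K ≠ ⊤ ∧ K.index = n := by
    refine ⟨H.index, H, le_rfl, ?_, rfl⟩
    intro h
    exact h1 (Subgroup.index_eq_one.mpr h)
  obtain ⟨K, hHK, hK, hKn⟩ := Nat.find_spec hex
  refine ⟨K, ⟨hK, ?_⟩, hHK⟩
  intro K' hKK'
  by_contra hK'
  have hfi : K.FiniteIndex := by
    rw [Subgroup.finiteIndex_iff]
    intro h2
    have := Subgroup.index_dvd_of_le hHK
    rw [h2, zero_dvd_iff] at this
    exact h0 this
  have h3 : K'.index < K.index := Subgroup.index_strictAnti hKK'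
  rw [hKn] at h3
  exact Nat.find_min hex h3 ⟨K', hHK.trans hKK'.le, hK', rfl⟩

/-- one level -/
theorem level {r q V : F2} {u : Fin 2 → F2} {m M : ℕ} (hm : 0 < m)
    (hq : q ∈ Subgroup.normalClosure {r})
    (hu : ∀ i, u i ∈ Subgroup.normalClosure {q}) (hV : InAll V (M / m))
    {H K : Subgroup F2} (hp : r ∈ K.normalCore) (hH0 : H.index ≠ 0) (hHM : H.index ≤ M)
    (hHK : H ≤ K) (h1 : m ≤ K.index) :
    Subgroup.normalClosure {FreeGroup.lift u V} ≤ H.normalCore := by
  apply Subgroup.normalClosure_le_normal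
  rw [Set.singleton_subset_iff]
  have hrK : Subgroup.normalClosure {r} ≤ K.normalCore :=
    Subgroup.normalClosure_le_normal (Set.singleton_subset_iff.mpr hp)
  have huK : ∀ i, u i ∈ K.normalCore := fun i =>
    hrK (normalClosure_le_of_mem hq (hu i))
  intro b
  set ψ : F2 →* F2 := FreeGroup.lift (fun i => b * u i * b⁻¹) with hψ
  have e1 : b * FreeGroup.lift u V * b⁻¹ = ψ V := by
    have : (MulAut.conj b).toMonoidHom.comp (FreeGroup.lift u) = ψ := by
      ext i
      simp [hψ]
    rw [← this]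
    simp
  rw [e1]
  have hrange : ψ.range ≤ K := by
    rw [hψ, FreeGroup.range_lift_eq_closure, Subgroup.closure_le]
    rintro _ ⟨i, rfl⟩
    exact huK i b
  have hrel0 : H.relIndex K ≠ 0 := by
    intro h
    have := Subgroup.relIndex_mul_index hHK
    rw [h, zero_mul] at this
    exact hH0 this.symm
  have hle : H.relIndex K ≤ M / m := by
    rw [Nat.le_div_iff_mul_le hm]
    calc H.relIndex K * m ≤ H.relIndex K * K.index := Nat.mul_le_mul_left _ h1
      _ = H.index := Subgroup.relIndex_mul_index hHK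
      _ ≤ M := hHM
  have h2 : (H.comap ψ).index = H.relIndex ψ.range := Subgroup.index_comap H ψ
  have h3 : H.relIndex ψ.range ≤ H.relIndex K := Subgroup.relIndex_le_of_le_right hrange hrel0
  have h4 : H.relIndex ψ.range ≠ 0 := by
    intro h
    exact hrel0 (Subgroup.relIndex_eq_zero_of_le_right hrange h)
  have h5 : V ∈ H.comap ψ := hV _ (by rw [h2]; exact h4) (by rw [h2]; exact h3.trans hle)
  exact h5

theorem recursion (C : ℕ) (p : ℕ → F2) (hp1 : ∀ a, 2 ≤ a → p a ≠ 1)
    (hp2 : ∀ a, 2 ≤ a → (p a).norm ≤ a ^ C)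
    (hp : ∀ a, 2 ≤ a → ∀ K : Subgroup F2, IsCoatom K → K.index = a → p a ∈ K.normalCore) :
    ∀ M, 1 ≤ M → ∃ V : F2, V ≠ 1 ∧ V.norm ≤ 128 * M ^ (2 * C + 16) ∧ InAll V M := by
  intro M
  induction M using Nat.strong_induction_on with
  | _ M IH =>
  intro hM1
  rcases Nat.eq_or_lt_of_le hM1 with hM | hM2
  · refine ⟨FreeGroup.of 0, FreeGroup.of_ne_one 0, ?_, ?_⟩
    · rw [FreeGroup.norm_of, ← hM, one_pow]
      norm_num
    · intro H h0 h1
      have : H = ⊤ := by
        rw [← Subgroup.index_eq_one]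
        omega
      rw [this]
      exact Subgroup.mem_top _
  · set J := Nat.log 2 M with hJ
    have hJ1 : 1 ≤ J := by
      rw [hJ]
      exact Nat.log_pos (by norm_num) hM2
    have hJM : 2 ^ J ≤ M := Nat.pow_log_le_self 2 (by omega)
    have hMJ : M < 2 ^ (J + 1) := Nat.lt_pow_succ_log_self (by norm_num) M
    set X := 128 * M ^ (2 * C + 16) with hX
    -- single levels
    have hW : ∀ j, 1 ≤ j → j ≤ J → ∃ W : F2, W ≠ 1 ∧ 8 * 4 ^ j * W.norm ≤ X ∧
        ∀ H K : Subgroup F2, H.index ≠ 0 → H.index ≤ M → IsCoatom K → H ≤ K → 2 ^ j ≤ K.index →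
          K.index < 2 ^ (j + 1) → Subgroup.normalClosure {W} ≤ H.normalCore := by
      intro j hj1 hjJ
      have h2jM : 2 ^ j ≤ M := (Nat.pow_le_pow_right (by norm_num) hjJ).trans hJM
      have h2j : 2 ≤ 2 ^ j := by
        calc 2 = 2 ^ 1 := by norm_num
          _ ≤ 2 ^ j := Nat.pow_le_pow_right (by norm_num) hj1
      have hjj : 2 ^ j + 2 ^ j = 2 ^ (j + 1) := by ring
      obtain ⟨q, hq1, hq2, hq3⟩ := balanced p ((2 ^ (j + 1)) ^ C) j (2 ^ j)
        (fun a h1 _ => hp1 a (h2j.trans h1))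
        (fun a h1 h2 => (hp2 a (h2j.trans h1)).trans (Nat.pow_le_pow_left (by omega) C))
      obtain ⟨u, hu1, hu2, hu3⟩ := exists_free_pair hq1
      have hdiv1 : 1 ≤ M / 2 ^ j := (Nat.one_le_div_iff (by positivity)).mpr h2jM
      have hdivM : M / 2 ^ j < M := Nat.div_lt_self (by omega) (by omega)
      obtain ⟨V, hV1, hV2, hV3⟩ := IH (M / 2 ^ j) hdivM hdiv1
      refine ⟨FreeGroup.lift u V, ?_, ?_, ?_⟩
      · intro h
        apply hV1
        apply hu3
        rw [h, _root_.map_one]
      · have h1 := norm_lift_le u (2 * q.norm + 8) hu2 V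
        have h2 : 2 * q.norm + 8 ≤ 2 ^ (4 + 2 * j + (j + 1) * C) := by
          have e1 : 1 ≤ (2 ^ (j + 1)) ^ C := Nat.one_le_pow _ _ (by positivity)
          calc 2 * q.norm + 8 ≤ 2 * (q.norm + 6) := by omega
            _ ≤ 2 * (4 ^ j * ((2 ^ (j + 1)) ^ C + 6)) := Nat.mul_le_mul_left _ hq3
            _ ≤ 2 * (4 ^ j * (8 * (2 ^ (j + 1)) ^ C)) := by
              refine Nat.mul_le_mul_left _ (Nat.mul_le_mul_left _ ?_)
              omega
            _ = 2 ^ (4 + 2 * j + (j + 1) * C) := by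
              rw [show (4 : ℕ) = 2 ^ 2 by norm_num, ← pow_mul, ← pow_mul]
              rw [show (8 : ℕ) = 2 ^ 3 by norm_num]
              ring
        have h3 : 8 * 4 ^ j * 2 ^ (4 + 2 * j + (j + 1) * C) ≤ (2 ^ j) ^ (2 * C + 16) := by
          calc 8 * 4 ^ j * 2 ^ (4 + 2 * j + (j + 1) * C)
              = 2 ^ (7 + 4 * j + (j + 1) * C) := by
                rw [show (4 : ℕ) ^ j = 2 ^ (2 * j) by rw [pow_mul]; norm_num,
                  show (8 : ℕ) = 2 ^ 3 by norm_num]
                ring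
            _ ≤ 2 ^ (j * (2 * C + 16)) := by
                apply Nat.pow_le_pow_right (by norm_num)
                nlinarith
            _ = (2 ^ j) ^ (2 * C + 16) := by rw [pow_mul]
        have h4 : (M / 2 ^ j) ^ (2 * C + 16) * (2 ^ j) ^ (2 * C + 16) ≤ M ^ (2 * C + 16) := by
          rw [← mul_pow]
          exact Nat.pow_le_pow_left (Nat.div_mul_le_self _ _) _
        calc 8 * 4 ^ j * (FreeGroup.lift u V).norm
            ≤ 8 * 4 ^ j * ((128 * (M / 2 ^ j) ^ (2 * C + 16))
                * 2 ^ (4 + 2 * j + (j + 1) * C)) := by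
              refine Nat.mul_le_mul_left _ (h1.trans ?_)
              exact Nat.mul_le_mul hV2 h2
          _ = 128 * (M / 2 ^ j) ^ (2 * C + 16)
                * (8 * 4 ^ j * 2 ^ (4 + 2 * j + (j + 1) * C)) := by ring
          _ ≤ 128 * (M / 2 ^ j) ^ (2 * C + 16) * (2 ^ j) ^ (2 * C + 16) :=
              Nat.mul_le_mul_left _ h3
          _ = 128 * ((M / 2 ^ j) ^ (2 * C + 16) * (2 ^ j) ^ (2 * C + 16)) := by ring
          _ ≤ 128 * M ^ (2 * C + 16) := Nat.mul_le_mul_left _ h4
      · intro H K hH0 hHM hK hHK h1 h2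
        exact level (by positivity) (hq2 K.index h1 (by omega)) hu1 hV3
          (hp K.index (h2j.trans h1) K hK rfl) hH0 hHM hHK h1
    -- nested combination
    have h4J : ∀ j, j ≤ J → 64 * 4 ^ j ≤ X := by
      intro j hj
      have h1 : 4 ^ j ≤ M ^ 2 := by
        calc 4 ^ j = (2 ^ j) ^ 2 := by rw [← pow_mul, mul_comm, pow_mul]; norm_num
          _ ≤ M ^ 2 := Nat.pow_le_pow_left
            ((Nat.pow_le_pow_right (by norm_num) hj).trans hJM) 2
      have h2 : M ^ 2 ≤ M ^ (2 * C + 16) := Nat.pow_le_pow_right (by omega) (by omega)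
      rw [hX]
      omega
    have hN : ∀ i, i < J → ∃ N : F2, N ≠ 1 ∧ 4 ^ (J - i) * N.norm ≤ X ∧
        ∀ H K : Subgroup F2, H.index ≠ 0 → H.index ≤ M → IsCoatom K → H ≤ K →
          2 ^ (J - i) ≤ K.index → K.index < 2 ^ (J + 1) →
          Subgroup.normalClosure {N} ≤ H.normalCore := by
      intro i
      induction i with
      | zero =>
        intro _
        obtain ⟨W, hW1, hW2, hW3⟩ := hW J hJ1 le_rfl
        refine ⟨W, hW1, ?_, ?_⟩
        · rw [Nat.sub_zero]
          have : 8 * 4 ^ J * W.norm = 8 * (4 ^ J * W.norm) := by ring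
          omega
        · rw [Nat.sub_zero]
          exact hW3
      | succ i ih =>
        intro hi
        obtain ⟨N', hN'1, hN'2, hN'3⟩ := ih (by omega)
        set j := J - (i + 1) with hj
        have hj' : J - i = j + 1 := by omega
        rw [hj'] at hN'2 hN'3
        obtain ⟨W, hW1, hW2, hW3⟩ := hW j (by omega) (by omega)
        obtain ⟨N, hN1, hN2, hN3, hN4⟩ := exists_comm hW1 hN'1
        refine ⟨N, hN1, ?_, ?_⟩
        · have e1 := h4J j (by omega)
          have e2 : 8 * 4 ^ j * W.norm = 8 * (4 ^ j * W.norm) := by ring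
          have e3 : 4 ^ (j + 1) * N'.norm = 4 * (4 ^ j * N'.norm) := by ring
          have e4 : 4 ^ j * N.norm ≤ 2 * (4 ^ j * W.norm) + 2 * (4 ^ j * N'.norm) + 16 * 4 ^ j := by
            calc 4 ^ j * N.norm ≤ 4 ^ j * (2 * W.norm + 2 * N'.norm + 16) :=
                  Nat.mul_le_mul_left _ hN4
              _ = _ := by ring
          omega
        · intro H K hH0 hHM hK hHK h1 h2
          by_cases h3 : K.index < 2 ^ (j + 1)
          · exact (normalClosure_le_of_mem hN2).trans (hW3 H K hH0 hHM hK hHK h1 h3)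
          · exact (normalClosure_le_of_mem hN3).trans
              (hN'3 H K hH0 hHM hK hHK (not_lt.mp h3) h2)
    obtain ⟨N, hN1, hN2, hN3⟩ := hN (J - 1) (by omega)
    rw [show J - (J - 1) = 1 by omega] at hN2 hN3
    refine ⟨N, hN1, ?_, ?_⟩
    · omega
    · intro H hH0 hHM
      by_cases h1 : H.index = 1
      · rw [Subgroup.index_eq_one.mp h1]
        exact Subgroup.mem_top _
      · obtain ⟨K, hK, hHK⟩ := exists_maximal_above hH0 h1
        have hK1 : K.index ≠ 1 := by
          intro h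
          exact hK.1 (Subgroup.index_eq_one.mp h)
        have hd := Subgroup.index_dvd_of_le hHK
        have hK0 : K.index ≠ 0 := by
          intro h
          rw [h, zero_dvd_iff] at hd
          exact hH0 hd
        have hKM : K.index ≤ M := (Nat.le_of_dvd (by omega) hd).trans hHM
        have := hN3 H K hH0 hHM hK hHK (by omega) (by omega)
          (Subgroup.subset_normalClosure (Set.mem_singleton _))
        exact Subgroup.normalCore_le H this

end Pool.MP99279c
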