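import Mathlib

/-!
# Words in the free group of rank two: commutators and free pairs in normal closures
-/

set_option autoImplicit false

namespace Pool.MP99279c

open FreeGroup

abbrev F2 := FreeGroup (Fin 2)

/-- no cancellation at the junction -/
theorem toWord_mul_of {h g : F2}
    (hc : ∀ a ∈ h.toWord.getLast?, ∀ b ∈ g.toWord.head?, a.1 = b.1 → a.2 = b.2) :
    (h * g).toWord = h.toWord ++ g.toWord := by
  rw [toWord_mul]
  apply IsReduced.reduce_eq
  rw [FreeGroup.IsReduced, List.isChain_append]
  exact ⟨isReduced_toWord, isReduced_toWord, hc⟩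

/-- the word of `g` starts with `c` -/
def St (g : F2) (c : Fin 2 × Bool) : Prop := g.toWord.head? = some c
/-- the word of `g` ends with `c` -/
def En (g : F2) (c : Fin 2 × Bool) : Prop := g.toWord.getLast? = some c

theorem St.ne_one {g : F2} {c : Fin 2 × Bool} (h : St g c) : g ≠ 1 := by
  rintro rfl
  simp [St] at h

theorem St_inv {g : F2} {c : Fin 2 × Bool} (h : En g c) : St g⁻¹ (c.1, !c.2) := by
  unfold St En at *
  rw [toWord_inv, invRev, List.head?_reverse, List.getLast?_map, h]
  rfl

theorem En_inv {g : F2} {c : Fin 2 × Bool} (h : St g c) : En g⁻¹ (c.1, !c.2) := by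
  unfold St En at *
  rw [toWord_inv, invRev, List.getLast?_reverse, List.head?_map, h]
  rfl

/-- if `h` starts with `c` and ends with `d`, and `g` does not start with the inverse of `d`,
then `h * g` starts with `c`. -/
theorem St_mul {h g : F2} {c d : Fin 2 × Bool} (hs : St h c) (he : En h d)
    (hg : ¬ St g (d.1, !d.2)) : St (h * g) c := by
  unfold St at *
  unfold En at he
  rw [toWord_mul_of]
  · rw [List.head?_append, hs]
    rfl
  · intro a ha b hb h1
    rw [he, Option.mem_def, Option.some_inj] at ha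
    rw [Option.mem_def] at hb
    subst ha
    by_contra h2
    apply hg
    rw [hb]
    congr 1
    obtain ⟨b1, b2⟩ := b
    obtain ⟨d1, d2⟩ := d
    simp only at h1 h2 ⊢
    subst h1
    congr 1
    cases b2 <;> cases d2 <;> simp_all

theorem En_mul {h g : F2} {c d : Fin 2 × Bool} (hs : St g c) (he : En g d)
    (hh : ¬ En h (c.1, !c.2)) : En (h * g) d := by
  have h1 : ¬ St h⁻¹ c := by
    intro h2
    apply hh
    have := En_inv h2
    rwa [inv_inv] at this
  have h3 := St_mul (St_inv he) (En_inv hs) (g := h⁻¹) (by simpa using h1)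
  have h4 := En_inv h3
  rw [← mul_inv_rev, inv_inv] at h4
  simpa using h4

theorem exists_letter : ∀ p q r : Fin 2 × Bool, ∃ s, s ≠ p ∧ s ≠ q ∧ s ≠ r := by decide

/-- a conjugate of `w` starting with a given letter `c` and ending with its inverse -/
theorem exists_conj {w : F2} (hw : w ≠ 1) (c : Fin 2 × Bool) :
    ∃ g : F2, St (g * w * g⁻¹) c ∧ En (g * w * g⁻¹) (c.1, !c.2) ∧
      (g * w * g⁻¹).norm ≤ w.norm + 4 := by
  have hne : w.toWord ≠ [] := by
    intro h
    exact hw (toWord_eq_nil_iff.mp h)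
  obtain ⟨α, hα⟩ : ∃ α, St w α := by
    unfold St
    exact ⟨_, List.head?_eq_some_head hne⟩
  obtain ⟨β, hβ⟩ : ∃ β, En w β := by
    unfold En
    exact ⟨_, List.getLast?_eq_some_getLast hne⟩
  obtain ⟨s, hs1, hs2, hs3⟩ := exists_letter (c.1, !c.2) (α.1, !α.2) β
  set g : F2 := mk [c, s] with hg
  have hred : FreeGroup.IsReduced [c, s] := by
    rw [isReduced_cons_cons]
    refine ⟨?_, FreeGroup.IsReduced.singleton⟩
    intro h1
    by_contra h2
    apply hs1
    obtain ⟨c1, c2⟩ := c
    obtain ⟨s1, s2⟩ := s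
    simp only at h1 h2 ⊢
    subst h1
    congr 1
    cases c2 <;> cases s2 <;> simp_all
  have hgw : g.toWord = [c, s] := by
    rw [hg, toWord_mk, hred.reduce_eq]
  have hgS : St g c := by unfold St; rw [hgw]; rfl
  have hgE : En g s := by unfold En; rw [hgw]; rfl
  have hgn : g.norm = 2 := by unfold FreeGroup.norm; rw [hgw]; rfl
  have hw1 : ¬ St w (s.1, !s.2) := by
    intro h
    have := h.symm.trans hα
    rw [Option.some_inj] at this
    apply hs2
    rw [← this]
    simp
  have h1 : St (g * w) c := St_mul hgS hgE hw1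
  have h2 : En (g * w) β := by
    refine En_mul hα hβ ?_
    intro h
    have := h.symm.trans hgE
    rw [Option.some_inj] at this
    exact hs2 this.symm
  refine ⟨g, ?_, ?_, ?_⟩
  · refine St_mul h1 h2 ?_
    intro h
    have h3 := St_inv hgE
    have := h.symm.trans h3
    rw [Option.some_inj] at this
    apply hs3
    rw [Prod.mk.injEq] at this
    have h5 := this.2
    exact Prod.ext this.1.symm (by simpa using h5.symm)
  · refine En_mul (St_inv hgE) (En_inv hgS) ?_
    intro h
    have := h.symm.trans h2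
    rw [Option.some_inj] at this
    apply hs3
    rw [← this]
    simp
  · have := norm_mul_le (g * w) g⁻¹
    have h5 := norm_mul_le g w
    rw [norm_inv_eq] at this
    omega

theorem exists_conj' {w : F2} (hw : w ≠ 1) (c : Fin 2 × Bool) :
    ∃ A : F2, A ∈ Subgroup.normalClosure {w} ∧ St A c ∧ En A (c.1, !c.2) ∧
      A.norm ≤ w.norm + 4 := by
  obtain ⟨g, h1, h2, h3⟩ := exists_conj hw c
  have hm : w ∈ Subgroup.normalClosure {w} := Subgroup.subset_normalClosure (Set.mem_singleton w)
  exact ⟨g * w * g⁻¹, Subgroup.normalClosure_normal.conj_mem w hm g, h1, h2, h3⟩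

theorem St_ne {c d : Fin 2 × Bool} (hcd : c ≠ d) {x : F2} (h1 : St x c) : ¬ St x d := by
  intro h2
  exact hcd (Option.some_inj.mp (h1.symm.trans h2))

theorem En_ne {c d : Fin 2 × Bool} (hcd : c ≠ d) {x : F2} (h1 : En x c) : ¬ En x d := by
  intro h2
  exact hcd (Option.some_inj.mp (h1.symm.trans h2))

/-- two non-trivial elements have a short non-trivial element in the intersection of their normal
closures -/
theorem exists_comm {A B : F2} (hA : A ≠ 1) (hB : B ≠ 1) :
    ∃ V : F2, V ≠ 1 ∧ V ∈ Subgroup.normalClosure {A} ∧ V ∈ Subgroup.normalClosure {B} ∧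
      V.norm ≤ 2 * A.norm + 2 * B.norm + 16 := by
  obtain ⟨A', hAc, hg1, hg2, hg3⟩ := exists_conj' hA ((0 : Fin 2), true)
  obtain ⟨B', hBc, hh1, hh2, hh3⟩ := exists_conj' hB ((1 : Fin 2), true)
  refine ⟨A' * (B' * (A'⁻¹ * B'⁻¹)), ?_, ?_, ?_, ?_⟩
  · -- non-trivial
    have s1 : St (A'⁻¹ * B'⁻¹) ((0 : Fin 2), true) := by
      refine St_mul (d := ((0 : Fin 2), false)) (by simpa using St_inv hg2)
        (by simpa using En_inv hg1) ?_
      exact St_ne (c := ((1 : Fin 2), true)) (by decide) (by simpa using St_inv hh2)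
    have s2 : St (B' * (A'⁻¹ * B'⁻¹)) ((1 : Fin 2), true) :=
      St_mul hh1 hh2 (St_ne (by decide) s1)
    have s3 : St (A' * (B' * (A'⁻¹ * B'⁻¹))) ((0 : Fin 2), true) :=
      St_mul hg1 hg2 (St_ne (by decide) s2)
    exact s3.ne_one
  · have : A' * (B' * (A'⁻¹ * B'⁻¹)) = A' * (B' * A'⁻¹ * B'⁻¹) := by group
    rw [this]
    exact mul_mem hAc (Subgroup.normalClosure_normal.conj_mem _ (inv_mem hAc) B')
  · have : A' * (B' * (A'⁻¹ * B'⁻¹)) = (A' * B' * A'⁻¹) * B'⁻¹ := by group
    rw [this]
    exact mul_mem (Subgroup.normalClosure_normal.conj_mem _ hBc A') (inv_mem hBc)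
  · have h1 := norm_mul_le A' (B' * (A'⁻¹ * B'⁻¹))
    have h2 := norm_mul_le B' (A'⁻¹ * B'⁻¹)
    have h3 := norm_mul_le A'⁻¹ B'⁻¹
    rw [norm_inv_eq, norm_inv_eq] at h3
    omega

/-- free pairs in the normal closure of a non-trivial element -/
theorem exists_free_pair {w : F2} (hw : w ≠ 1) :
    ∃ u : Fin 2 → F2, (∀ i, u i ∈ Subgroup.normalClosure {w}) ∧
      (∀ i, (u i).norm ≤ 2 * w.norm + 8) ∧ Function.Injective (FreeGroup.lift u) := by
  obtain ⟨a, hac, hg1, hg2, hg3⟩ := exists_conj' hw ((0 : Fin 2), true)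
  obtain ⟨b, hbc, hh1, hh2, hh3⟩ := exists_conj' hw ((1 : Fin 2), false)
  obtain ⟨a', hac', hg'1, hg'2, hg'3⟩ := exists_conj' hw ((1 : Fin 2), true)
  obtain ⟨b', hbc', hh'1, hh'2, hh'3⟩ := exists_conj' hw ((0 : Fin 2), false)
  have S1 : St (a * b) ((0 : Fin 2), true) := St_mul hg1 hg2 (St_ne (by decide) hh1)
  have E1 : En (a * b) ((1 : Fin 2), true) := En_mul hh1 hh2 (En_ne (by decide) hg2)
  have S2 : St (a' * b') ((1 : Fin 2), true) := St_mul hg'1 hg'2 (St_ne (by decide) hh'1)
  have E2 : En (a' * b') ((0 : Fin 2), true) := En_mul hh'1 hh'2 (En_ne (by decide) hg'2)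
  refine ⟨![a * b, a' * b'], ?_, ?_, ?_⟩
  · intro i
    fin_cases i
    · exact mul_mem hac hbc
    · exact mul_mem hac' hbc'
  · intro i
    fin_cases i
    · have := norm_mul_le a b
      simp only [Fin.zero_eta, Matrix.cons_val_zero]
      omega
    · have := norm_mul_le a' b'
      simp only [Fin.mk_one, Matrix.cons_val_one, Matrix.cons_val_fin_one]
      omega
  · refine FreeGroup.injective_lift_of_ping_pong (α := F2) ![a * b, a' * b']
      (fun i => {x | St x (i, true)}) (fun i => {x | St x (1 - i, false)}) ?_ ?_ ?_ ?_ ?_ ?_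
    · intro i
      exact ⟨FreeGroup.of i, by simp [St]⟩
    · intro i j hij
      rw [Function.onFun, Set.disjoint_left]
      intro x h1 h2
      refine St_ne ?_ h1 h2
      intro h3
      exact hij (Prod.mk.inj h3).1
    · intro i j hij
      rw [Function.onFun, Set.disjoint_left]
      intro x h1 h2
      refine St_ne ?_ h1 h2
      intro h3
      have := (Prod.mk.inj h3).1
      exact hij (by simpa using this)
    · intro i j
      rw [Set.disjoint_left]
      intro x h1 h2
      refine St_ne ?_ h1 h2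
      intro h3
      have := (Prod.mk.inj h3).2
      simp at this
    · intro i
      fin_cases i
      · rintro _ ⟨x, hx, rfl⟩
        simp only [Fin.zero_eta, Matrix.cons_val_zero, Set.mem_compl_iff, Set.mem_ofPred_eq,
          smul_eq_mul] at hx ⊢
        exact St_mul S1 E1 (by simpa using hx)
      · rintro _ ⟨x, hx, rfl⟩
        simp only [Fin.mk_one, Matrix.cons_val_one, Matrix.cons_val_fin_one, Set.mem_compl_iff,
          Set.mem_ofPred_eq, smul_eq_mul] at hx ⊢
        exact St_mul S2 E2 (by simpa using hx)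
    · intro i
      fin_cases i
      · rintro _ ⟨x, hx, rfl⟩
        simp only [Fin.zero_eta, Pi.inv_apply, Matrix.cons_val_zero, Set.mem_compl_iff,
          Set.mem_ofPred_eq, smul_eq_mul] at hx ⊢
        have := St_mul (St_inv E1) (En_inv S1) (g := x) (by simpa using hx)
        simpa using this
      · rintro _ ⟨x, hx, rfl⟩
        simp only [Fin.mk_one, Pi.inv_apply, Matrix.cons_val_one, Matrix.cons_val_fin_one,
          Set.mem_compl_iff, Set.mem_ofPred_eq, smul_eq_mul] at hx ⊢
        have := St_mul (St_inv E2) (En_inv S2) (g := x) (by simpa using hx)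
        simpa using this

/-- length of a substitution -/
theorem norm_lift_le (u : Fin 2 → F2) (L : ℕ) (hu : ∀ i, (u i).norm ≤ L) (V : F2) :
    (FreeGroup.lift u V).norm ≤ V.norm * L := by
  have key : ∀ l : List (Fin 2 × Bool), (FreeGroup.lift u (FreeGroup.mk l)).norm ≤ l.length * L := by
    intro l
    induction l with
    | nil => simp [← FreeGroup.one_eq_mk]
    | cons a l ih =>
      have h1 : FreeGroup.mk (a :: l) = FreeGroup.mk [a] * FreeGroup.mk l := by
        rw [FreeGroup.mul_mk]; rfl
      rw [h1, MonoidHom.map_mul]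
      have h2 : (FreeGroup.lift u (FreeGroup.mk [a])).norm ≤ L := by
        rw [FreeGroup.lift_mk]
        obtain ⟨i, b⟩ := a
        cases b
        · simpa using hu i
        · simpa using hu i
      have h3 := norm_mul_le (FreeGroup.lift u (FreeGroup.mk [a])) (FreeGroup.lift u (FreeGroup.mk l))
      rw [List.length_cons]
      nlinarith
  have := key V.toWord
  rwa [FreeGroup.mk_toWord] at this

end Pool.MP99279c
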